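import Mathlib

/-!
MP_ef7f46_co, project TN (helper86): tight lower bound for strong epsilon-nets of points and lines
in the plane (nets contained in the ground set).  Definitions.  See BLUEPRINT.md.
-/

set_option autoImplicit false
open Classical Finset

noncomputable section

namespace TN

/-! ### incidence sums -/

/-- weighted degree of the point `y`: total weight of the lines through `y` -/
def dg {Q Λ : Type} [Fintype Λ] (inc : Λ → Finset Q) (w : Λ → ℝ) (y : Q) : ℝ :=
  ∑ ℓ, if y ∈ inc ℓ then w ℓ else 0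

/-- weights between 0 and 1 -/
def U01 {Λ : Type} (w : Λ → ℝ) : Prop := ∀ ℓ, 0 ≤ w ℓ ∧ w ℓ ≤ 1

/-- number of lines through both `y` and `y'` -/
def chi {Q Λ : Type} [Fintype Λ] (inc : Λ → Finset Q) (y y' : Q) : ℝ :=
  ((univ.filter (fun ℓ => y ∈ inc ℓ ∧ y' ∈ inc ℓ)).card : ℝ)

/-- `inc` is a partial linear space with `N * M` points, `N` points on each line, at most `N` lines
through a point, at most one line through two distinct points, and many lines -/
structure Lin {Q Λ : Type} [Fintype Q] [Fintype Λ] (inc : Λ → Finset Q) (N M : ℕ) : Prop where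
  line : ∀ ℓ, (inc ℓ).card = N
  deg : ∀ y, (univ.filter (fun ℓ => y ∈ inc ℓ)).card ≤ N
  codeg : ∀ y y', y ≠ y' → (univ.filter (fun ℓ => y ∈ inc ℓ ∧ y' ∈ inc ℓ)).card ≤ 1
  cardQ : Fintype.card Q = N * M
  Npos : 0 < N
  Mpos : 0 < M
  many : 99 / 100 * ((N : ℝ) * M) ≤ (Fintype.card Λ : ℝ)

/-! ### the convex potential function -/

/-- `0` up to `2`, slope 1 from `3` on -/
def psi (x : ℝ) : ℝ := ((max 0 (x - 2)) ^ 2 - (max 0 (x - 3)) ^ 2) / 2

/-- derivative of `psi` -/
def psi' (x : ℝ) : ℝ := max 0 (min 1 (x - 2))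

/-! ### the context -/

/-- `m` batches of `b` random points (`m * b = lam * M`); `net` is a finite set of weights
approximating all weights; `tau` its relative `L²` error, `eta` the threshold for exceptional
points, `eps` the error of the dense models, `C` the coefficient of the potential, `del` the
density bound for exceptional sets -/
structure Ctx (Q Λ : Type) where
  inc : Λ → Finset Q
  N : ℕ
  M : ℕ
  m : ℕ
  b : ℕ
  lam : ℕ
  net : Finset (Λ → ℝ)
  tau : ℝ
  eta : ℝ
  eps : ℝ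
  C : ℝ
  del : ℝ

/-- state of the process: weights `W` of the lines (0 for lines already hit) and accumulated
intensities `s` -/
structure St (Λ : Type) where
  W : Λ → ℝ
  s : Λ → ℝ

section
variable {Q Λ : Type} [Fintype Q] [Fintype Λ] (X : Ctx Q Λ)

/-- the number `N * M` (number of points, and about the number of lines), as a real -/
def qq : ℝ := (X.N : ℝ) * X.M

/-- normalised local mass -/
def G (W : Λ → ℝ) (y : Q) : ℝ := dg X.inc W y / X.N

/-- average of `psi' ∘ G` over a line -/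
def phi (W : Λ → ℝ) (ℓ : Λ) : ℝ := (∑ y ∈ X.inc ℓ, psi' (G X W y)) / X.N

/-- a priori bound of the combined weights -/
def Rc : ℝ := (X.C + X.lam + 2) * Real.exp X.lam

/-- the combined weights -/
def wc (S : St Λ) (ℓ : Λ) : ℝ := (X.C * phi X S.W ℓ + S.s ℓ + 2) * S.W ℓ

/-- `w'` approximates `w` in `L²` -/
def Near (w w' : Λ → ℝ) : Prop :=
  ∑ y, (dg X.inc w y - dg X.inc w' y) ^ 2 ≤ X.tau ^ 2 * X.N ^ 2 * qq X

/-- chosen approximation of `w` in the net -/
def appr (w : Λ → ℝ) : Λ → ℝ := if h : ∃ w' ∈ X.net, Near X w w' then h.choose else 0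

/-- exceptional points for the weight `w` (with values in `[0,1]`) -/
def Exc (w : Λ → ℝ) : Finset Q :=
  univ.filter (fun y => X.eta * X.N < |dg X.inc w y - dg X.inc (appr X w) y|)

/-- points of large local mass -/
def big (W : Λ → ℝ) : Finset Q := univ.filter (fun y => 3 < G X W y)

/-- points of large local mass, guarded: empty if there are too many of them -/
def bigG (W : Λ → ℝ) : Finset Q := if ((big X W).card : ℝ) ≤ X.del / 2 * qq X then big X W else ∅

/-- exceptional points of a state -/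
def ex0 (S : St Λ) : Finset Q := Exc X (fun ℓ => wc X S ℓ / Rc X) ∪ bigG X S.W

/-- normal indices of a batch -/
def Fs (S : St Λ) (β : Fin X.b → Q) (I : Finset (Fin X.b)) : Finset (Fin X.b) :=
  I.filter (fun j => β j ∉ ex0 X S)

/-- `g` is a dense model of the part `J` of the batch `β` -/
def IsDM (β : Fin X.b → Q) (J : Finset (Fin X.b)) (g : Q → ℝ) : Prop :=
  (∀ y, 0 ≤ g y ∧ g y ≤ 1) ∧
    ∀ w ∈ X.net, |∑ j ∈ J, dg X.inc w (β j) - (X.b / qq X) * ∑ y, g y * dg X.inc w y|
      ≤ X.eps * X.N * X.b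

/-- chosen dense model -/
def dm (β : Fin X.b → Q) (J : Finset (Fin X.b)) : Q → ℝ :=
  if h : ∃ g, IsDM X β J g then h.choose else 0

/-- intensity of the line `ℓ` in the batch -/
def hh (β : Fin X.b → Q) (J : Finset (Fin X.b)) (ℓ : Λ) : ℝ :=
  (X.b / qq X) * ∑ y ∈ X.inc ℓ, dm X β J y

/-- one step: lines hit by the points `β j`, `j ∈ I`, get weight 0, the others grow by the
intensity of the normal points -/
def step (S : St Λ) (β : Fin X.b → Q) (I : Finset (Fin X.b)) : St Λ where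
  W := fun ℓ => if ∃ j ∈ I, β j ∈ X.inc ℓ then 0 else S.W ℓ * (1 + hh X β (Fs X S β I) ℓ)
  s := fun ℓ => S.s ℓ + hh X β (Fs X S β I) ℓ

/-- positions: batch number and number inside the batch -/
abbrev Pos := Fin X.m × Fin X.b

/-- slice of a set of positions -/
def sl (I : Finset (Pos X)) (i : Fin X.m) : Finset (Fin X.b) :=
  univ.filter (fun j => (i, j) ∈ I)

/-- the process for the point sequence `z` and the set of positions `I` -/
def st (z : Pos X → Q) (I : Finset (Pos X)) : ℕ → St Λ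
  | 0 => ⟨fun _ => 1, fun _ => 0⟩
  | (i + 1) =>
    if h : i < X.m then step X (st z I i) (fun j => z (⟨i, h⟩, j)) (sl X I ⟨i, h⟩)
    else st z I i

/-- indicator of the lines avoiding the points with positions in `J` -/
def vJ (z : Pos X → Q) (J : Finset (Pos X)) (ℓ : Λ) : ℝ :=
  if ∃ p ∈ J, z p ∈ X.inc ℓ then 0 else 1

/-- weights for the second test (foresight `J`), scaled to `[0,1]` -/
def w3 (z : Pos X → Q) (I J : Finset (Pos X)) (i : ℕ) (ℓ : Λ) : ℝ :=
  vJ X z J ℓ * (st X z I i).W ℓ / Real.exp X.lam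

/-- number of points of the batch on the line -/
def pc (β : Fin X.b → Q) (ℓ : Λ) : ℕ := (univ.filter (fun j => β j ∈ X.inc ℓ)).card

/-- number of positions on the line -/
def pz (z : Pos X → Q) (ℓ : Λ) : ℕ := (univ.filter (fun p => z p ∈ X.inc ℓ)).card

/-! ### hypotheses -/

/-- structural hypotheses on the context -/
structure Reg : Prop where
  lin : Lin X.inc X.N X.M
  mpos : 0 < X.m
  bpos : 0 < X.b
  lampos : 0 < X.lam
  lamm : X.lam ≤ X.m
  mb : X.m * X.b = X.lam * X.M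
  taupos : 0 < X.tau
  etapos : 0 < X.eta
  epspos : 0 < X.eps
  Cpos : 1 ≤ X.C
  delpos : 0 < X.del
  delle : X.del ≤ 1
  net01 : ∀ w ∈ X.net, U01 w
  netap : ∀ w, U01 w → ∃ w' ∈ X.net, Near X w w'

/-- numerical hypotheses -/
structure Num : Prop where
  lam64 : 64 ≤ X.lam
  /-- exceptional density of one test -/
  exc : (X.tau / X.eta) ^ 2 ≤ X.del / 2
  /-- errors of the potential -/
  err1 : (X.lam : ℝ) * Rc X * (X.tau + X.eta + X.eps) ≤ 1 / 4
  err2 : Rc X * (5 * (X.lam : ℝ) ^ 2 / X.m) ≤ 1 / 4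
  err3 : X.C * Real.exp (2 * X.lam) *
    ((X.lam : ℝ) ^ 2 / X.m + 10 * (2 * X.lam / X.N + (X.lam : ℝ) ^ 2 / X.m)) ≤ 1 / 4
  /-- density of the points of large local mass -/
  bigd : 4 * (6 / 400 * (X.lam : ℝ) + 1) ≤ X.C * X.del
  /-- error of the mass -/
  err4 : (X.lam : ℝ) ^ 2 * Real.exp X.lam / X.m +
    2 * X.lam * Real.exp X.lam * (X.tau + X.eta + X.eps) ≤ 3 / 10
  /-- poor lines and lines through repeated points are few -/
  poor : 10 * Real.exp (-(3 / 5 * (X.lam : ℝ))) + 5 * (X.lam : ℝ) ^ 2 / X.N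
    < 3 / 8 * Real.exp (-((X.lam : ℝ) / 4))
  /-- few repeated positions -/
  rep : 10 * (X.lam : ℝ) / X.N ≤ 1 / 800
  /-- union bound over sets of positions -/
  union : (4 : ℝ) ^ (X.lam * X.M) * X.del ^ ((X.M : ℝ) / 100) +
    (8 : ℝ) ^ (X.lam * X.M) * X.del ^ ((X.M : ℝ) / 100) ≤ 1 / 10
  /-- union bound for the dense models -/
  dense : ∃ R : ℕ, 2 / X.eps ^ 2 ≤ R ∧
    X.m * ((2 * (X.net.card : ℝ)) ^ R * Real.exp (-(X.b * X.eps ^ 2 / 16))) ≤ 1 / 10

/-- typical point sequences -/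
structure Typ (z : Pos X → Q) : Prop where
  dense : ∀ i : Fin X.m, ∀ J : Finset (Fin X.b), ∃ g, IsDM X (fun j => z (i, j)) J g
  multi : ∑ i : Fin X.m, ∑ ℓ, ((pc X (fun j => z (i, j)) ℓ).choose 2 : ℝ)
    ≤ 5 * (X.lam : ℝ) ^ 2 / X.m * qq X
  second : ∑ i : Fin X.m, ∑ y, (∑ j, chi X.inc y (z (i, j))) ^ 2
    ≤ 10 * (2 * X.lam / X.N + (X.lam : ℝ) ^ 2 / X.m) * X.N ^ 2 * qq X
  poor : ((univ.filter (fun ℓ => (pz X z ℓ : ℝ) ≤ X.lam / 8)).card : ℝ)
    ≤ 10 * Real.exp (-(3 / 5 * (X.lam : ℝ))) * qq X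
  replines : ((univ.filter (fun ℓ => ∃ p p', p ≠ p' ∧ z p = z p' ∧ z p ∈ X.inc ℓ)).card : ℝ)
    ≤ 5 * (X.lam : ℝ) ^ 2 / X.N * qq X
  reps : ((univ.filter (fun p => ∃ p', p' ≠ p ∧ z p = z p')).card : ℝ)
    ≤ 10 * (X.lam : ℝ) / X.N * (X.lam * X.M)

/-- positions of `I` at which the point is exceptional -/
def bad1 (z : Pos X → Q) (I : Finset (Pos X)) : Finset (Pos X) :=
  I.filter (fun p => z p ∈ ex0 X (st X z I p.1))

/-- positions of `I \ J` at which the point is exceptional for the second test -/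
def bad2 (z : Pos X → Q) (I J : Finset (Pos X)) : Finset (Pos X) :=
  (I \ J).filter (fun p => z p ∈ Exc X (w3 X z I J p.1))

/-- few exceptional positions -/
structure Few (z : Pos X → Q) : Prop where
  one : ∀ I : Finset (Pos X), ((bad1 X z I).card : ℝ) ≤ (X.M : ℝ) / 100
  two : ∀ I J : Finset (Pos X), ((bad2 X z I J).card : ℝ) ≤ (X.M : ℝ) / 100

/-- the potential -/
def Om (S : St Λ) : ℝ := X.C * ∑ y, psi (G X S.W y) + ∑ ℓ, S.s ℓ * S.W ℓ

/-- mass of the lines avoiding `J` -/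
def Ma (v : Λ → ℝ) (S : St Λ) : ℝ := ∑ ℓ, v ℓ * S.W ℓ

end

end TN
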