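import Pool.Agent.Work.MP_ef7f46_tn.Defs

/-!
MP_ef7f46_co, project TN (helper86): exact statements of the blocks.
Proofs are in BLUEPRINT.md.  Dependencies of a block are hypotheses of its theorem.
-/

set_option autoImplicit false
open Classical Finset

noncomputable section

namespace TN

/-! ### elementary blocks -/

/-- PSI: properties of the potential function -/
def Stmt_PSI : Prop :=
  ∀ a b : ℝ, psi b ≤ psi a + psi' a * (b - a) + (b - a) ^ 2 / 2 ∧ 0 ≤ psi a ∧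
    (a ≤ 2 → psi a = 0) ∧ (3 ≤ a → 1 / 2 ≤ psi a) ∧ 0 ≤ psi' a ∧ psi' a ≤ 1

/-- LCARD: number of lines, double counting -/
def Stmt_LCARD : Prop :=
  ∀ (Q Λ : Type) [Fintype Q] [Fintype Λ] (inc : Λ → Finset Q) (N M : ℕ), Lin inc N M →
    (Fintype.card Λ : ℝ) ≤ (N : ℝ) * M ∧
    (∀ (w : Λ → ℝ) (g : Q → ℝ), ∑ y, g y * dg inc w y = ∑ ℓ, w ℓ * ∑ y ∈ inc ℓ, g y) ∧
    (∀ w : Λ → ℝ, (∀ ℓ, 0 ≤ w ℓ) → ∀ y, 0 ≤ dg inc w y) ∧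
    (∀ (w : Λ → ℝ) (R : ℝ), (∀ ℓ, 0 ≤ w ℓ ∧ w ℓ ≤ R) → ∀ y, dg inc w y ≤ N * R)

/-- SPEC: the large part of the spectrum is small -/
def Stmt_SPEC : Prop :=
  ∀ (Q Λ : Type) [Fintype Q] [Fintype Λ] (inc : Λ → Finset Q) (N M : ℕ), Lin inc N M →
    ∀ Θ : ℝ, 0 < Θ → ∃ (r : ℕ) (u : Fin r → Q → ℝ),
      (∀ i j, ∑ y, u i y * u j y = if i = j then 1 else 0) ∧
      (r : ℝ) ≤ 2 * (N * M) * N ^ 2 / Θ ^ 2 ∧
      ∀ w : Λ → ℝ, ∑ y, (dg inc w y) ^ 2 - ∑ i, (∑ y, u i y * dg inc w y) ^ 2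
        ≤ Θ * ∑ ℓ, (w ℓ) ^ 2

/-- NET: a small net of weights -/
def Stmt_NET : Prop :=
  ∀ (Q Λ : Type) [Fintype Q] [Fintype Λ] (inc : Λ → Finset Q) (N M : ℕ), Lin inc N M →
    ∀ (Θ : ℝ) (K : ℕ), 0 < Θ → 0 < K → ∃ net : Finset (Λ → ℝ), (∀ w ∈ net, U01 w) ∧
      (net.card : ℝ) ≤ ((2 : ℝ) * K + 1) ^ ((2 : ℝ) * (N * M) * N ^ 2 / Θ ^ 2) ∧
      ∀ w, U01 w → ∃ w' ∈ net, ∑ y, (dg inc w y - dg inc w' y) ^ 2
        ≤ Θ * (N * M) + ((N : ℝ) * M) ^ 2 * N ^ 2 / K ^ 2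

/-- DMA: dense models by a perceptron type algorithm -/
def Stmt_DMA : Prop :=
  ∀ (Q : Type) [Fintype Q] [Nonempty Q] (b : ℕ) (β : Fin b → Q) (F : Finset (Q → ℝ)) (ε : ℝ)
    (R : ℕ), 0 < b → (∀ f ∈ F, ∀ y, 0 ≤ f y ∧ f y ≤ 1) → 0 < ε → 2 / ε ^ 2 ≤ R →
    (∀ H : Fin R → (Q → ℝ), (∀ r, H r ∈ F ∨ -H r ∈ F) →
      (∑ j, max 0 (∑ r, H r (β j))) / b ≤
        (∑ y, max 0 (∑ r, H r y)) / (Fintype.card Q : ℝ) + R * ε / 2) →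
    ∀ J : Finset (Fin b), ∃ g : Q → ℝ, (∀ y, 0 ≤ g y ∧ g y ≤ 1) ∧
      ∀ f ∈ F, |(∑ j ∈ J, f (β j)) / b - (∑ y, g y * f y) / (Fintype.card Q : ℝ)| ≤ ε

/-- HOE: Chernoff bound, counting form -/
def Stmt_HOE : Prop :=
  ∀ (Q : Type) [Fintype Q] [Nonempty Q] (b : ℕ) (f : Q → ℝ) (ε : ℝ), 0 < b →
    (∀ y, 0 ≤ f y ∧ f y ≤ 1) → 0 < ε → ε ≤ 1 →
    ((univ.filter (fun β : Fin b → Q =>
      (∑ y, f y) / (Fintype.card Q : ℝ) + ε / 2 < (∑ j, f (β j)) / b)).card : ℝ) ≤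
      Real.exp (-(b * ε ^ 2 / 16)) * (Fintype.card Q : ℝ) ^ b

/-- DMC: few batches without dense models -/
def Stmt_DMC : Prop :=
  ∀ (Q Λ : Type) [Fintype Q] [Fintype Λ] (X : Ctx Q Λ), Reg X → ∀ R : ℕ, X.eps ≤ 1 →
    2 / X.eps ^ 2 ≤ R →
    ((univ.filter (fun β : Fin X.b → Q =>
      ¬ ∀ J : Finset (Fin X.b), ∃ g, IsDM X β J g)).card : ℝ) ≤
      (2 * (X.net.card : ℝ)) ^ R * Real.exp (-(X.b * X.eps ^ 2 / 16)) * qq X ^ X.b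

/-- CHE: approximation and the number of exceptional points of one weight -/
def Stmt_CHE : Prop :=
  ∀ (Q Λ : Type) [Fintype Q] [Fintype Λ] (X : Ctx Q Λ), Reg X → ∀ w : Λ → ℝ, U01 w →
    appr X w ∈ X.net ∧ Near X w (appr X w) ∧
    ((Exc X w).card : ℝ) ≤ (X.tau / X.eta) ^ 2 * qq X

/-- STB: bounds for intensities, states and test weights -/
def Stmt_STB : Prop :=
  ∀ (Q Λ : Type) [Fintype Q] [Fintype Λ] (X : Ctx Q Λ), Reg X →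
    (∀ (β : Fin X.b → Q) (J : Finset (Fin X.b)) (ℓ : Λ),
      0 ≤ hh X β J ℓ ∧ hh X β J ℓ ≤ X.lam / X.m) ∧
    (∀ (z : Pos X → Q) (I : Finset (Pos X)) (i : ℕ) (ℓ : Λ),
      0 ≤ (st X z I i).W ℓ ∧ (st X z I i).W ℓ ≤ Real.exp ((st X z I i).s ℓ) ∧
      0 ≤ (st X z I i).s ℓ ∧ (st X z I i).s ℓ ≤ X.lam ∧
      (st X z I i).W ℓ ≤ Real.exp X.lam) ∧
    (∀ S : St Λ, (∀ ℓ, 0 ≤ S.W ℓ ∧ S.W ℓ ≤ Real.exp X.lam ∧ 0 ≤ S.s ℓ ∧ S.s ℓ ≤ X.lam) →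
      U01 (fun ℓ => wc X S ℓ / Rc X) ∧ ∀ ℓ, 0 ≤ phi X S.W ℓ ∧ phi X S.W ℓ ≤ 1) ∧
    (∀ (z : Pos X → Q) (I J : Finset (Pos X)) (i : ℕ), U01 (w3 X z I J i))

/-- ADP: the state before batch `i` depends only on the earlier batches -/
def Stmt_ADP : Prop :=
  ∀ (Q Λ : Type) [Fintype Q] [Fintype Λ] (X : Ctx Q Λ) (z z' : Pos X → Q) (I : Finset (Pos X))
    (i : ℕ), (∀ p : Pos X, p.1.val < i → z p = z' p) → st X z I i = st X z' I i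

/-- CNT: sequential counting lemma -/
def Stmt_CNT : Prop :=
  ∀ (Q P : Type) [Fintype Q] [Fintype P] (ρ : P → ℕ) (J R : Finset P)
    (E : P → (P → Q) → Finset Q) (δ : ℝ), 0 ≤ δ → Disjoint R J →
    (∀ p ∈ R, ∀ z z' : P → Q, (∀ p', (p' ∈ J ∨ ρ p' < ρ p) → z p' = z' p') → E p z = E p z') →
    (∀ p ∈ R, ∀ z, ((E p z).card : ℝ) ≤ δ * Fintype.card Q) →
    ((univ.filter (fun z : P → Q => ∀ p ∈ R, z p ∈ E p z)).card : ℝ) ≤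
      δ ^ R.card * (Fintype.card Q : ℝ) ^ (Fintype.card P)

/-- CE1: few sequences with many exceptional positions (first test) -/
def Stmt_CE1 : Prop :=
  ∀ (Q Λ : Type) [Fintype Q] [Fintype Λ] (X : Ctx Q Λ), Reg X →
    (X.tau / X.eta) ^ 2 ≤ X.del / 2 →
    ((univ.filter (fun z : Pos X → Q => ∃ I : Finset (Pos X),
      (X.M : ℝ) / 100 < ((bad1 X z I).card : ℝ))).card : ℝ) ≤
      (4 : ℝ) ^ (X.lam * X.M) * X.del ^ ((X.M : ℝ) / 100) * qq X ^ (X.lam * X.M)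

/-- CE2: few sequences with many exceptional positions (second test, with foresight) -/
def Stmt_CE2 : Prop :=
  ∀ (Q Λ : Type) [Fintype Q] [Fintype Λ] (X : Ctx Q Λ), Reg X →
    (X.tau / X.eta) ^ 2 ≤ X.del / 2 →
    ((univ.filter (fun z : Pos X → Q => ∃ I J : Finset (Pos X),
      (X.M : ℝ) / 100 < ((bad2 X z I J).card : ℝ))).card : ℝ) ≤
      (8 : ℝ) ^ (X.lam * X.M) * X.del ^ ((X.M : ℝ) / 100) * qq X ^ (X.lam * X.M)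

/-! ### one batch -/

/-- MUL: lines hit, with multiplicity -/
def Stmt_MUL : Prop :=
  ∀ (Q Λ : Type) [Fintype Q] [Fintype Λ] (X : Ctx Q Λ) (w : Λ → ℝ) (R : ℝ),
    (∀ ℓ, 0 ≤ w ℓ ∧ w ℓ ≤ R) → ∀ (β : Fin X.b → Q) (F : Finset (Fin X.b)),
    ∑ j ∈ F, dg X.inc w (β j) ≤
      (∑ ℓ, if ∃ j ∈ F, β j ∈ X.inc ℓ then w ℓ else 0) + R * ∑ ℓ, ((pc X β ℓ).choose 2 : ℝ)

/-- BALA: intensities are at most the hits, for normal points -/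
def Stmt_BALA : Prop :=
  ∀ (Q Λ : Type) [Fintype Q] [Fintype Λ] (X : Ctx Q Λ), Reg X → ∀ (w : Λ → ℝ) (R : ℝ), 0 < R →
    (∀ ℓ, 0 ≤ w ℓ ∧ w ℓ ≤ R) → ∀ (β : Fin X.b → Q),
    (∀ J : Finset (Fin X.b), ∃ g, IsDM X β J g) → ∀ F : Finset (Fin X.b),
    (∀ j ∈ F, β j ∉ Exc X (fun ℓ => w ℓ / R)) →
    ∑ ℓ, w ℓ * hh X β F ℓ ≤
      ∑ j ∈ F, dg X.inc w (β j) + X.b * R * X.N * (X.tau + X.eta + X.eps)

/-- BALB: hits are at most the intensities plus the exceptional hits -/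
def Stmt_BALB : Prop :=
  ∀ (Q Λ : Type) [Fintype Q] [Fintype Λ] (X : Ctx Q Λ), Reg X → ∀ (w : Λ → ℝ) (R : ℝ), 0 < R →
    (∀ ℓ, 0 ≤ w ℓ ∧ w ℓ ≤ R) → ∀ (β : Fin X.b → Q),
    (∀ J : Finset (Fin X.b), ∃ g, IsDM X β J g) → ∀ F : Finset (Fin X.b),
    ∑ j ∈ F, dg X.inc w (β j) ≤ ∑ ℓ, w ℓ * hh X β F ℓ +
      X.b * R * X.N * (X.tau + X.eta + X.eps) +
      ∑ j ∈ F.filter (fun j => β j ∈ Exc X (fun ℓ => w ℓ / R)), dg X.inc w (β j)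

/-- GST: second order term of one step -/
def Stmt_GST : Prop :=
  ∀ (Q Λ : Type) [Fintype Q] [Fintype Λ] (X : Ctx Q Λ), Reg X → ∀ (S : St Λ),
    (∀ ℓ, 0 ≤ S.W ℓ ∧ S.W ℓ ≤ Real.exp X.lam) → ∀ (β : Fin X.b → Q) (I : Finset (Fin X.b)),
    ∑ y, (G X (step X S β I).W y - G X S.W y) ^ 2 ≤
      2 * Real.exp (2 * X.lam) * ((X.lam : ℝ) / X.m) ^ 2 * qq X +
      2 * Real.exp (2 * X.lam) / X.N ^ 2 * ∑ y, (∑ j, chi X.inc y (β j)) ^ 2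

/-- PST: one step of the potential -/
def Stmt_PST : Prop :=
  ∀ (Q Λ : Type) [Fintype Q] [Fintype Λ] (X : Ctx Q Λ), Reg X → ∀ (S : St Λ),
    (∀ ℓ, 0 ≤ S.W ℓ ∧ S.W ℓ ≤ Real.exp X.lam ∧ 0 ≤ S.s ℓ ∧ S.s ℓ ≤ X.lam) →
    ((big X S.W).card : ℝ) ≤ X.del / 2 * qq X →
    ∀ (β : Fin X.b → Q), (∀ J : Finset (Fin X.b), ∃ g, IsDM X β J g) →
    ∀ I : Finset (Fin X.b),
    Om X (step X S β I) ≤ Om X S + X.b * Rc X * X.N * (X.tau + X.eta + X.eps) +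
      Rc X * ∑ ℓ, ((pc X β ℓ).choose 2 : ℝ) + 6 * X.N * I.card +
      X.C / 2 * ∑ y, (G X (step X S β I).W y - G X S.W y) ^ 2

/-- MST: one step of the mass -/
def Stmt_MST : Prop :=
  ∀ (Q Λ : Type) [Fintype Q] [Fintype Λ] (X : Ctx Q Λ), Reg X → ∀ (S : St Λ),
    (∀ ℓ, 0 ≤ S.W ℓ ∧ S.W ℓ ≤ Real.exp X.lam ∧ 0 ≤ S.s ℓ ∧ S.s ℓ ≤ X.lam) →
    ((big X S.W).card : ℝ) ≤ X.del / 2 * qq X →
    ∀ (v : Λ → ℝ), (∀ ℓ, v ℓ = 0 ∨ v ℓ = 1) →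
    ∀ (β : Fin X.b → Q), (∀ J : Finset (Fin X.b), ∃ g, IsDM X β J g) →
    ∀ I : Finset (Fin X.b),
    (∀ j ∈ I, 3 < G X S.W (β j) → ∀ ℓ, β j ∈ X.inc ℓ → v ℓ = 0) →
    Ma v S ≤ Ma v (step X S β I) + ((X.lam : ℝ) / X.m) ^ 2 * Real.exp X.lam * qq X +
      2 * X.b * Real.exp X.lam * X.N * (X.tau + X.eta + X.eps) +
      6 * X.N * (((I.filter (fun j => β j ∈ Exc X (fun ℓ => v ℓ * S.W ℓ / Real.exp X.lam) ∧
        ∃ ℓ, β j ∈ X.inc ℓ ∧ v ℓ = 1)).card : ℝ) +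
        ((I.filter (fun j => β j ∈ ex0 X S)).card : ℝ))

/-! ### the whole process -/

/-- PSU: the potential stays small -/
def Stmt_PSU : Prop :=
  ∀ (Q Λ : Type) [Fintype Q] [Fintype Λ] (X : Ctx Q Λ), Reg X → Num X →
    ∀ z : Pos X → Q, Typ X z → ∀ I : Finset (Pos X), (I.card : ℝ) ≤ X.lam * X.M / 400 →
    ∀ i ≤ X.m, Om X (st X z I i) ≤ (6 / 400 * (X.lam : ℝ) + 1) * qq X ∧
      ((big X (st X z I i).W).card : ℝ) ≤ X.del / 2 * qq X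

/-- MSU: half of the mass survives -/
def Stmt_MSU : Prop :=
  ∀ (Q Λ : Type) [Fintype Q] [Fintype Λ] (X : Ctx Q Λ), Reg X → Num X →
    ∀ z : Pos X → Q, Typ X z → Few X z → ∀ I : Finset (Pos X),
    (I.card : ℝ) ≤ X.lam * X.M / 400 → qq X / 2 ≤ ∑ ℓ, (st X z I X.m).W ℓ

/-- DET: every small set of positions misses a rich line -/
def Stmt_DET : Prop :=
  ∀ (Q Λ : Type) [Fintype Q] [Fintype Λ] (X : Ctx Q Λ), Reg X → Num X →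
    ∀ z : Pos X → Q, Typ X z → Few X z → ∀ I : Finset (Pos X),
    (I.card : ℝ) ≤ X.lam * X.M / 400 →
    ∃ ℓ : Λ, (∀ p ∈ I, z p ∉ X.inc ℓ) ∧ (X.lam : ℝ) / 8 < pz X z ℓ ∧
      ∀ p p', z p ∈ X.inc ℓ → z p = z p' → p = p'

/-! ### typical sequences: first moments -/

def Stmt_TYM : Prop :=
  ∀ (Q Λ : Type) [Fintype Q] [Fintype Λ] (X : Ctx Q Λ), Reg X →
    ((univ.filter (fun z : Pos X → Q =>
      ¬ ∑ i : Fin X.m, ∑ ℓ, ((pc X (fun j => z (i, j)) ℓ).choose 2 : ℝ)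
        ≤ 5 * (X.lam : ℝ) ^ 2 / X.m * qq X)).card : ℝ) ≤ 1 / 10 * qq X ^ (X.lam * X.M)

def Stmt_TYS : Prop :=
  ∀ (Q Λ : Type) [Fintype Q] [Fintype Λ] (X : Ctx Q Λ), Reg X →
    ((univ.filter (fun z : Pos X → Q =>
      ¬ ∑ i : Fin X.m, ∑ y, (∑ j, chi X.inc y (z (i, j))) ^ 2
        ≤ 10 * (2 * X.lam / X.N + (X.lam : ℝ) ^ 2 / X.m) * X.N ^ 2 * qq X)).card : ℝ)
      ≤ 1 / 10 * qq X ^ (X.lam * X.M)

def Stmt_TYP : Prop :=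
  ∀ (Q Λ : Type) [Fintype Q] [Fintype Λ] (X : Ctx Q Λ), Reg X →
    ((univ.filter (fun z : Pos X → Q =>
      ¬ ((univ.filter (fun ℓ => (pz X z ℓ : ℝ) ≤ X.lam / 8)).card : ℝ)
        ≤ 10 * Real.exp (-(3 / 5 * (X.lam : ℝ))) * qq X)).card : ℝ)
      ≤ 1 / 10 * qq X ^ (X.lam * X.M)

def Stmt_TYL : Prop :=
  ∀ (Q Λ : Type) [Fintype Q] [Fintype Λ] (X : Ctx Q Λ), Reg X →
    ((univ.filter (fun z : Pos X → Q =>
      ¬ ((univ.filter (fun ℓ => ∃ p p', p ≠ p' ∧ z p = z p' ∧ z p ∈ X.inc ℓ)).card : ℝ)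
        ≤ 5 * (X.lam : ℝ) ^ 2 / X.N * qq X)).card : ℝ) ≤ 1 / 10 * qq X ^ (X.lam * X.M)

def Stmt_TYR : Prop :=
  ∀ (Q Λ : Type) [Fintype Q] [Fintype Λ] (X : Ctx Q Λ), Reg X →
    ((univ.filter (fun z : Pos X → Q =>
      ¬ ((univ.filter (fun p => ∃ p', p' ≠ p ∧ z p = z p')).card : ℝ)
        ≤ 10 * (X.lam : ℝ) / X.N * (X.lam * X.M))).card : ℝ) ≤ 1 / 10 * qq X ^ (X.lam * X.M)

/-- EXI: good sequences exist -/
def Stmt_EXI : Prop :=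
  ∀ (Q Λ : Type) [Fintype Q] [Fintype Λ] (X : Ctx Q Λ), Reg X → Num X →
    ∃ z : Pos X → Q, Typ X z ∧ Few X z

/-! ### the planar configuration and the parameters -/

/-- lines `y = a + v x`, `a < M`, `v < N`, staying in the box `[0,N) × [0,M)` -/
abbrev PL (N M : ℕ) : Type := {p : Fin M × Fin N // p.1.val + (N - 1) * p.2.val < M}

/-- points of the line `y = a + v x` in the box -/
def incP (N M : ℕ) (ℓ : PL N M) : Finset (Fin N × Fin M) :=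
  univ.filter (fun y => y.2.val = ℓ.1.1.val + y.1.val * ℓ.1.2.val)

/-- PLN: the planar configuration is a partial linear space -/
def Stmt_PLN : Prop :=
  ∀ N M : ℕ, 0 < N → 100 * N * N ≤ M → Lin (incP N M) N M

/-- the number of points of a typical line -/
def lamf (u : ℕ) : ℕ := ⌊Real.log u / 400⌋₊

/-- the context with the parameter `u` -/
def mkX {Q Λ : Type} (u : ℕ) (inc : Λ → Finset Q) (net : Finset (Λ → ℝ)) : Ctx Q Λ where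
  inc := inc
  N := u ^ 32
  M := u ^ 66
  m := u ^ 3
  b := lamf u * u ^ 63
  lam := lamf u
  net := net
  tau := 1 / (u : ℝ) ^ 4
  eta := 1 / (u : ℝ) ^ 3
  eps := 1 / (u : ℝ) ^ 3
  C := (u : ℝ) ^ 2
  del := 1 / (u : ℝ)

/-- PARN: the numerical hypotheses hold for large `u` -/
def Stmt_PARN : Prop :=
  ∃ u₀ : ℕ, ∀ u : ℕ, u₀ ≤ u → ∀ (Q Λ : Type) [Fintype Q] [Fintype Λ] (inc : Λ → Finset Q)
    (net : Finset (Λ → ℝ)), (net.card : ℝ) ≤ (4 * (u : ℝ) ^ 53 + 1) ^ (8 * (u : ℝ) ^ 50) →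
    Num (mkX u inc net)

/-- PARX: the context exists for large `u` -/
def Stmt_PARX : Prop :=
  ∃ u₀ : ℕ, ∀ u : ℕ, u₀ ≤ u → ∀ (Q Λ : Type) [Fintype Q] [Fintype Λ] (inc : Λ → Finset Q),
    Lin inc (u ^ 32) (u ^ 66) →
    ∃ net : Finset (Λ → ℝ), Reg (mkX u inc net) ∧ Num (mkX u inc net)

/-- CMB: the combinatorial theorem.  `A` is a set of at most `λ u^66` points of the grid, and every
subset with at most `λ u^66 / 800` points misses a line `y = a + v x` containing more than `λ / 8`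
points of `A` -/
def Stmt_CMB : Prop :=
  ∃ u₀ : ℕ, ∀ u : ℕ, u₀ ≤ u → ∃ A : Finset (ℕ × ℕ), A.Nonempty ∧
    A.card ≤ lamf u * u ^ 66 ∧ (∀ p ∈ A, p.1 < u ^ 32 ∧ p.2 < u ^ 66) ∧
    ∀ T ⊆ A, (T.card : ℝ) ≤ lamf u * (u : ℝ) ^ 66 / 800 →
      ∃ a v : ℕ, v < u ^ 32 ∧ a + (u ^ 32 - 1) * v < u ^ 66 ∧
        (lamf u : ℝ) / 8 < ((A.filter (fun p => p.2 = a + p.1 * v)).card : ℝ) ∧
        ∀ p ∈ T, p.2 ≠ a + p.1 * v

/-! ### the plane -/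

/-- The line through two distinct points of the plane `ℝ × ℝ`. -/
def lineThrough (p q : ℝ × ℝ) : Set (ℝ × ℝ) :=
  {x | (x.1 - p.1) * (q.2 - p.2) = (x.2 - p.2) * (q.1 - p.1)}

/-- The finite set of lines passing through at least two points of `P`. -/
def spannedLines (P : Finset (ℝ × ℝ)) : Finset (Set (ℝ × ℝ)) :=
  P.offDiag.image (fun a => lineThrough a.1 a.2)

/-- `N` is an `ε`-net for `(P, w)`: a set of spanned lines such that every point `p ∈ P` whose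
spanned lines have total weight at least `ε` times the total weight lies on a line of `N`. -/
def IsEpsNet (ε : ℝ) (P : Finset (ℝ × ℝ)) (w : Set (ℝ × ℝ) → ℝ) (N : Finset (Set (ℝ × ℝ))) :
    Prop :=
  N ⊆ spannedLines P ∧
    ∀ p ∈ P, ε * (∑ l ∈ spannedLines P, w l) ≤ (∑ l ∈ spannedLines P with p ∈ l, w l) →
      ∃ l ∈ N, p ∈ l

/-- `T ⊆ P` is a (strong) `ε`-net for lines: it meets every line containing at least `ε |P|` points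
of `P` -/
def IsPointNet (ε : ℝ) (P T : Finset (ℝ × ℝ)) : Prop :=
  T ⊆ P ∧ ∀ a b c : ℝ, (a, b) ≠ (0, 0) →
    ε * (P.card : ℝ) ≤ ((P.filter (fun p => a * p.1 + b * p.2 = c)).card : ℝ) →
    ∃ p ∈ T, a * p.1 + b * p.2 = c

/-- CLS: classical form for one parameter `u` -/
def Stmt_CLS : Prop :=
  ∃ u₀ : ℕ, ∀ u : ℕ, u₀ ≤ u → ∃ P : Finset (ℝ × ℝ), P.Nonempty ∧
    ∀ ε : ℝ, 0 < ε → ε ≤ 1 / (8 * (u : ℝ) ^ 66) → ∀ T, IsPointNet ε P T →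
      (lamf u : ℝ) * (u : ℝ) ^ 66 / 800 ≤ (T.card : ℝ)

/-- WTD: weighted form for one parameter `u` -/
def Stmt_WTD : Prop :=
  ∃ u₀ : ℕ, ∀ u : ℕ, u₀ ≤ u → ∀ ε : ℝ, 0 < ε → ε ≤ 1 / (8 * (u : ℝ) ^ 66) →
    ∃ (P : Finset (ℝ × ℝ)) (w : Set (ℝ × ℝ) → ℝ), 2 ≤ P.card ∧
      (∀ l ∈ spannedLines P, 0 < w l) ∧
      ∀ N, IsEpsNet ε P w N → (∀ l ∈ N, ε ^ 2 * (∑ l' ∈ spannedLines P, w l') ≤ w l) →
        (lamf u : ℝ) * (u : ℝ) ^ 66 / 800 ≤ (N.card : ℝ)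

/-- FIN: the theorem -/
def Stmt_FIN : Prop :=
  ∃ c : ℝ, 0 < c ∧ ∃ ε₀ : ℝ, 0 < ε₀ ∧ ε₀ < 1 ∧ ∀ ε : ℝ, 0 < ε → ε < ε₀ →
    (∃ P : Finset (ℝ × ℝ), P.Nonempty ∧ ∀ T, IsPointNet ε P T →
      c * (1 / ε) * Real.log (1 / ε) ≤ (T.card : ℝ)) ∧
    (∃ (P : Finset (ℝ × ℝ)) (w : Set (ℝ × ℝ) → ℝ), 2 ≤ P.card ∧
      (∀ l ∈ spannedLines P, 0 < w l) ∧
      ∀ N, IsEpsNet ε P w N → (∀ l ∈ N, ε ^ 2 * (∑ l' ∈ spannedLines P, w l') ≤ w l) →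
        c * (1 / ε) * Real.log (1 / ε) ≤ (N.card : ℝ))

end TN
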